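import Mathlib
import Pool.Agent.Lib_helper83.ORD.Final

/-!
Question Q2 of MP_94c9ac_al (index order): a length bound for every finite group, which equals the
order of the group for a large class of groups.

Proof idea. Parent of a cyclic subgroup `M`: its subgroup of index the smallest prime factor of
`|M|`. Going up this tree, a sequence whose terms lie above `D` is cut into consecutive windows,
each window contains an index-ordered block with product in `D` and weight at most `1/|D|`, and the
blocks of `p` disjoint consecutive windows merge (pigeonhole on prefix products) to a block with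
product in the parent. The terms lying in the abelian subgroups of the family are handled by the
Kleitman-Lemke theorem.
-/

namespace Pool.Agent.Lib_helper83.Superseded.IndexOrder

/-- `kappa n` is the product of `p / (p - 1)` over the prime factors `p` of `n` other than the
smallest one. -/
noncomputable def kappa (n : ℕ) : ℚ :=
  ∏ p ∈ n.primeFactors.erase n.minFac, (p : ℚ) / ((p : ℚ) - 1)

/-- The family `F` consists of abelian subgroups with pairwise trivial intersection, and an element
outside their union has no nontrivial power in the union. -/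
def Admissible {G : Type*} [Group G] (F : Finset (Subgroup G)) : Prop :=
  (∀ A ∈ F, ∀ x ∈ A, ∀ y ∈ A, x * y = y * x) ∧
  (∀ A ∈ F, ∀ B ∈ F, A ≠ B → A ⊓ B = ⊥) ∧
  (∀ x : G, (∀ A ∈ F, x ∉ A) → ∀ k : ℕ, (∃ A ∈ F, x ^ k ∈ A) → x ^ k = 1)

/-- The sequence `g` has a nonempty set `K` of indices such that the product of the corresponding
terms in index order is the identity and the sum of the reciprocals of their orders is at most 1. -/
def HasLight {G : Type*} [Group G] {m : ℕ} (g : Fin m → G) : Prop :=
  ∃ K : Finset (Fin m), K.Nonempty ∧ ((K.sort (· ≤ ·)).map g).prod = 1 ∧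
    ∑ k ∈ K, (1 : ℚ) / (orderOf (g k) : ℚ) ≤ 1

open Classical in
theorem result (G : Type*) [Group G] [Fintype G] (F : Finset (Subgroup G)) (hF : Admissible F) :
    (∀ (m : ℕ) (g : Fin m → G),
      1 + ∑ A ∈ F, ((Nat.card A : ℚ) - 1) +
        ∑ x ∈ Finset.univ.filter (fun x : G => x ≠ 1 ∧ ∀ A ∈ F, x ∉ A), kappa (orderOf x) ≤ m →
      HasLight g) ∧
    ((∀ x : G, x ≠ 1 → (∀ A ∈ F, x ∉ A) → IsPrimePow (orderOf x)) →
      ∀ g : Fin (Fintype.card G) → G, HasLight g) := by
  have hA : Pool.Agent.Lib_helper83.ORD.Adm F := ⟨hF.1, hF.2.1, hF.2.2⟩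
  have h1 : ∀ (m : ℕ) (g : Fin m → G),
      Pool.Agent.Lib_helper83.ORD.bound F ≤ m → HasLight g := by
    intro m g hm
    apply Pool.Agent.Lib_helper83.ORD.light_of_blk g
    apply Pool.Agent.Lib_helper83.ORD.main_list hA
    rw [List.length_ofFn]; exact hm
  refine ⟨fun m g hm => h1 m g hm, fun hp g => h1 _ g ?_⟩
  have := Pool.Agent.Lib_helper83.ORD.bound_le hA hp
  rwa [Nat.card_eq_fintype_card] at this

end Pool.Agent.Lib_helper83.Superseded.IndexOrder
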