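import Pool.Agent.Lib_helper83.KCA.Final

/-!
# MP_45e720_ag: Lang's problem for Kummer covers along an arbitrary finite morphism

`X` is the projective variety in complex projective space of dimension `N` defined by a set `S` of
homogeneous polynomials, and `s 0, ..., s n` are homogeneous polynomials of the same degree
`e > 0` without common zero on `X`: they define a finite morphism `p` from `X` to projective space
of dimension `n`, and up to replacing the `s i` by powers every finite morphism from a projective
variety to a projective space is of this form. `kummer m S s` is the Kummer cover `X_m` of `X`, the
pullback under `p` of the map `[u i] ↦ [u i ^ m]`: the set of all `([x], [u])` with `[x] ∈ X` and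
`[s 0 (x) : ... : s n (x)] = [u 0 ^ m : ... : u n ^ m]`.

The theorem: for all large `m` the following are equivalent:
* every holomorphic map from the plane to `X` that is ramified to order at least `m` over all the
  divisors `s i = 0` is constant;
* `X_m` is Brody hyperbolic;
* every holomorphic map from a complex torus to `X_m` is constant;
* `X_m` contains no rational curve;
* every holomorphic map from the plane to `X` that for each `i` omits the divisor `s i = 0` or is
  contained in it is constant;
* `X` contains no toric curve (rational curve on which every `s i` is a constant times a power of
  one parameter).
If `X` contains a toric curve then every `X_m` contains a rational curve and receives a nonconstant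
map from a complex torus.

Proof: a sequence of nonconstant entire curves with `m → ∞` has, after reparametrisation, a limit
whose coordinates are exponentials `exp h` with bounded spherical derivative, so `h` is linear;
translations make the slopes real, and the lift to `X` is a finite exponential sum by a theorem of
Ritt type, proved here by a Newton polygon and Hensel argument over the ring of exponential sums.
-/

namespace Pool.Agent.Results.MP_45e720_ag.KummerCovers

open LangKC

theorem result {N n e : ℕ} (he : 0 < e) (S : Set (MvPolynomial (Fin (N + 1)) ℂ))
    (hS : ∀ F ∈ S, ∃ d, F.IsHomogeneous d) (s : Fin (n + 1) → MvPolynomial (Fin (N + 1)) ℂ)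
    (hs : ∀ i, (s i).IsHomogeneous e) (hfin : ∀ x ∈ cone S, val s x = 0 → x = 0) :
    (∀ m, 0 < m → NoTorusMaps (kummer m S s) → ¬ ToricCurve S s) ∧
    (∀ m, 0 < m → NoRationalCurves (kummer m S s) → ¬ ToricCurve S s) ∧
    ∃ m₀, ∀ m, m₀ ≤ m → List.TFAE [OrbifoldHyperbolic m S s, BrodyHyperbolic (kummer m S s),
      NoTorusMaps (kummer m S s), NoRationalCurves (kummer m S s), StrataHyperbolic S s,
      ¬ ToricCurve S s] :=
  main_thm ⟨he, hS, hs, hfin⟩

end Pool.Agent.Results.MP_45e720_ag.KummerCovers
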