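import Pool.Agent.Lib_helper83.Prof.Final

set_option autoImplicit false

namespace Pool.Agent.Lib_helper83.Superseded.SecondCountable

open Pool.Agent.ProfCore

universe u

/-- (1) A profinite group `H` is isomorphic to a closed subgroup with trivial rational core of the
profinite completion of some finitely generated torsion-free amenable group if and only if `H` is
second countable. (2) There is a single finitely generated, torsion-free, amenable and residually
finite group `G` which works for all second countable profinite groups `H`. -/
theorem result :
    (∀ (H : Type u) [Group H] [TopologicalSpace H] [IsTopologicalGroup H] [CompactSpace H]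
      [TotallyDisconnectedSpace H],
      (∃ (G : Type) (_ : Group G), Group.FG G ∧ TorsionFree G ∧ Amenable G ∧
        IsCoreFreeClosedSubgroupOf H G) ↔ SecondCountableTopology H) ∧
    (∃ (G : Type) (_ : Group G), Group.FG G ∧ TorsionFree G ∧ Amenable G ∧
      Group.ResiduallyFinite G ∧
      ∀ (H : Type u) [Group H] [TopologicalSpace H] [IsTopologicalGroup H] [CompactSpace H]
        [TotallyDisconnectedSpace H], SecondCountableTopology H →
        IsCoreFreeClosedSubgroupOf H G) := by
  refine ⟨?_, Pool.Agent.PC.universal⟩
  intro H _ _ _ _ _
  constructor
  · rintro ⟨G, _, hG, -, -, h⟩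
    exact Pool.Agent.PC.necessity G hG H h
  · intro hH
    obtain ⟨G, iG, h1, h2, h3, -, h5⟩ := Pool.Agent.PC.universal.{u}
    exact ⟨G, iG, h1, h2, h3, h5 H hH⟩

end Pool.Agent.Lib_helper83.Superseded.SecondCountable
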